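/-!
A checker for propositional unit propagation proofs which the kernel can evaluate fast.

This file imports nothing: the certificate modules import only this file.

Masks: a clause is a natural number, bit `b` of it stands for the literal with the code `b`; the
negation of the literal `b` has the code `k - b`, and `K = 2 ^ k`.

All loops are written with recursors, with raw literals and with the operations of `Nat` which the
kernel evaluates with big numbers.  Addresses are forced to literals (`Nat.rec` on the address), so
that the kernel evaluates the mask of every clause only once per theorem.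
-/

set_option autoImplicit false

namespace Pool.Agent.Work.MP_92a29d_co_h93

/-- binary tree of numbers -/
inductive Tr where
  | leaf (n : Nat)
  | node (l r : Tr)

/-- list of segments of a proof: number of lemmas, packed hints -/
inductive Sg where
  | nil
  | cons (k s : Nat) (t : Sg)

/-- the entry with the index `i` (lowest bit first) -/
noncomputable def Tr.get : Tr → Nat → Nat :=
  Tr.rec (motive := fun _ => Nat → Nat) (fun n _ => n)
    (fun _ _ gl gr i => Bool.rec (gl (Nat.shiftRight i (nat_lit 1)))
      (gr (Nat.shiftRight i (nat_lit 1))) (Nat.beq (Nat.land i (nat_lit 1)) (nat_lit 1)))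

/-- page with the index `p` -/
noncomputable def pageAt (T : Tr) (p : Nat) : Nat := T.get p

/-- `n` groups of four literals -/
noncomputable def expand (p0 p1 p2 p3 g gm n : Nat) : Nat → Nat → Nat :=
  Nat.rec (motive := fun _ => Nat → Nat → Nat) (fun _ acc => acc)
    (fun _ ih w acc => ih (Nat.shiftRight w g)
      ((fun x => Nat.lor (Nat.shiftLeft (nat_lit 1) (Nat.mod x p0))
        (Nat.lor (Nat.shiftLeft (nat_lit 1) (Nat.mod x p1))
        (Nat.lor (Nat.shiftLeft (nat_lit 1) (Nat.mod x p2))
        (Nat.lor (Nat.shiftLeft (nat_lit 1) (Nat.mod x p3)) acc)))) (Nat.land w gm))) n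

/-- clause number `i` of a page: 32 fields of 16 bits (6 bits: number of groups, 10 bits: first
group), then the groups -/
noncomputable def fromPage (p0 p1 p2 p3 g gm pg i : Nat) : Nat :=
  (fun h => expand p0 p1 p2 p3 g gm (Nat.land h (nat_lit 63))
      (Nat.shiftRight pg (Nat.add (nat_lit 512) (Nat.mul g (Nat.shiftRight h (nat_lit 6)))))
      (nat_lit 0))
    (Nat.land (Nat.shiftRight pg (Nat.mul (nat_lit 16) i)) (nat_lit 65535))

/-- mask of the clause with the global index `i` -/
noncomputable def Lm (p0 p1 p2 p3 g gm : Nat) (T : Tr) (i : Nat) : Nat :=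
  Nat.rec (motive := fun _ => Nat) (nat_lit 0)
    (fun p _ => fromPage p0 p1 p2 p3 g gm (pageAt T p) (Nat.land i (nat_lit 31)))
    (Nat.add (Nat.shiftRight i (nat_lit 5)) (nat_lit 1))

/-- global index of the imported clause `m`: pages of 64 numbers of 20 bits -/
noncomputable def impIdx (IT : Tr) (m : Nat) : Nat :=
  Nat.rec (motive := fun _ => Nat) (nat_lit 0)
    (fun p _ => Nat.land (Nat.shiftRight (pageAt IT p)
      (Nat.mul (nat_lit 20) (Nat.land m (nat_lit 63)))) (nat_lit 1048575))
    (Nat.add (Nat.shiftRight m (nat_lit 6)) (nat_lit 1))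

/-- mask of the clause with the local address `m`: the addresses below `nI` are imported clauses
with global indices below `a`, the others are the clauses from `a` on -/
noncomputable def Dm (L : Nat → Nat) (IT : Tr) (nI a m : Nat) : Nat :=
  Bool.rec (L (Nat.add a (Nat.sub m nI))) (L (Nat.mod (impIdx IT m) a)) (Nat.ble (Nat.succ m) nI)

/-- a unit propagation: the address is `a - 1`, address `0` does nothing -/
noncomputable def hint (D : Nat → Nat) (K a X : Nat) : Nat :=
  Nat.rec (motive := fun _ => Nat) X
    (fun m _ => (fun r => Nat.xor X (Nat.shiftRight (Nat.div K r) (Nat.mod K r)))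
      (Nat.land (D m) X)) a

/-- four hints -/
noncomputable def blk4 (D : Nat → Nat) (K c s X : Nat) : Nat :=
  hint D K (Nat.sub c (Nat.mod s (nat_lit 6037))) (hint D K (Nat.sub c (Nat.mod s (nat_lit 6029)))
  (hint D K (Nat.sub c (Nat.mod s (nat_lit 6011)))
  (hint D K (Nat.sub c (Nat.mod s (nat_lit 6007))) X)))

/-- eight hints -/
noncomputable def blk8 (D : Nat → Nat) (K c s X : Nat) : Nat :=
  hint D K (Nat.sub c (Nat.mod s (nat_lit 6067))) (hint D K (Nat.sub c (Nat.mod s (nat_lit 6053)))
  (hint D K (Nat.sub c (Nat.mod s (nat_lit 6047)))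
  (hint D K (Nat.sub c (Nat.mod s (nat_lit 6043)))
  (hint D K (Nat.sub c (Nat.mod s (nat_lit 6037)))
  (hint D K (Nat.sub c (Nat.mod s (nat_lit 6029)))
  (hint D K (Nat.sub c (Nat.mod s (nat_lit 6011)))
  (hint D K (Nat.sub c (Nat.mod s (nat_lit 6007))) X)))))))

/-- `n` blocks of eight hints of 101 bits -/
noncomputable def blocks (D : Nat → Nat) (K c n : Nat) : Nat → Nat → Nat :=
  Nat.rec (motive := fun _ => Nat → Nat → Nat) (fun _ X => X)
    (fun _ ih S X => ih (Nat.shiftRight S (nat_lit 101))
      (blk8 D K c (Nat.land S (nat_lit 0x1fffffffffffffffffffffffff)) X)) n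

/-- `e` (zero or one) blocks of four hints of 51 bits -/
noncomputable def pre4 (D : Nat → Nat) (K c e S X : Nat) : Nat :=
  Nat.rec (motive := fun _ => Nat) X
    (fun _ _ => blk4 D K c (Nat.land S (nat_lit 0x7ffffffffffff)) X) e

/-- the remainder of the final clause of the lemma with the local address `c`; `n`, `e`, `f`: the
number of blocks of eight, of four, the final address; `S`: the hints; `A`: all literals -/
noncomputable def fin (D : Nat → Nat) (K A c n e f S : Nat) : Nat :=
  Nat.rec (motive := fun _ => Nat) (nat_lit 1)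
    (fun m _ => Nat.land (D m) (blocks D K c n (Nat.shiftRight S (Nat.mul (nat_lit 51) e))
      (pre4 D K c e S (Nat.land A (Nat.xor A
        (Nat.rec (motive := fun _ => Nat) (nat_lit 0) (fun m _ => D m)
          (Nat.add c (nat_lit 1))))))))
    (Nat.sub c f)

/-- `n` lemmas; header: 8 bits blocks of eight, 1 bit block of four, 13 bits final address -/
noncomputable def lemmas (D : Nat → Nat) (K A n : Nat) : Nat → Nat → Bool :=
  Nat.rec (motive := fun _ => Nat → Nat → Bool) (fun _ _ => true)
    (fun _ ih c S =>
      (fun nb e => Bool.rec false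
        (ih (Nat.add c (nat_lit 1)) (Nat.shiftRight S (Nat.add (nat_lit 22)
          (Nat.add (Nat.mul (nat_lit 101) nb) (Nat.mul (nat_lit 51) e)))))
        (Nat.beq (fin D K A c nb e (Nat.land (Nat.shiftRight S (nat_lit 9)) (nat_lit 8191))
          (Nat.shiftRight S (nat_lit 22))) (nat_lit 0)))
      (Nat.land S (nat_lit 255)) (Nat.land (Nat.shiftRight S (nat_lit 8)) (nat_lit 1))) n

/-- all segments -/
noncomputable def run (D : Nat → Nat) (K A : Nat) (l : Sg) : Nat → Bool :=
  Sg.rec (motive := fun _ => Nat → Bool) (fun _ => true)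
    (fun n S _ ih c => Bool.rec false (ih (Nat.add c n)) (lemmas D K A n c S)) l

/-- entry `m` of a table: pages of 64 numbers of 24 bits -/
noncomputable def codeAt (C : Tr) (m : Nat) : Nat :=
  Nat.rec (motive := fun _ => Nat) (nat_lit 0)
    (fun p _ => Nat.land (Nat.shiftRight (pageAt C p)
      (Nat.mul (nat_lit 24) (Nat.land m (nat_lit 63)))) (nat_lit 16777215))
    (Nat.add (Nat.shiftRight m (nat_lit 6)) (nat_lit 1))

/-- the first `n` clauses are masks of original clauses -/
noncomputable def origs (OM L : Nat → Nat) (C : Tr) (A n : Nat) : Bool :=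
  Nat.rec (motive := fun _ => Bool) true
    (fun i ih => Bool.rec false ih
      (Nat.beq (Nat.land A (OM (codeAt C i))) (Nat.land A (L i)))) n

/-- number of lemmas -/
noncomputable def Sg.size (l : Sg) : Nat :=
  Sg.rec (motive := fun _ => Nat) (nat_lit 0) (fun n _ _ ih => Nat.add n ih) l

end Pool.Agent.Work.MP_92a29d_co_h93
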