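import Pool.Agent.Work.MP_92a29d_co_h45.Tab
import Pool.Agent.Work.MP_92a29d_co_h93.Core

/-!
Soundness of the checker.
-/

set_option autoImplicit false

namespace Pool.Agent.Work.MP_92a29d_co_h93

open Pool.Agent.Work.MP_92a29d_co_h45

section hint

variable {B k : ℕ} {τ : ℕ → Prop}

/-- `X` contains all true literals, and only literals -/
structure Inv (B k : ℕ) (τ : ℕ → Prop) (X : ℕ) : Prop where
  all : ∀ b, CT B k τ b → X.testBit b = true
  rng : ∀ b, X.testBit b = true → B ≤ b ∧ b + B ≤ k

theorem two_pow_dvd_of_testBit {r B : ℕ} (h : ∀ b, r.testBit b = true → B ≤ b) : 2 ^ B ∣ r := by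
  rw [Nat.dvd_iff_mod_eq_zero]
  apply Nat.eq_of_testBit_eq
  intro i
  rw [Nat.testBit_mod_two_pow, Nat.zero_testBit]
  by_cases hi : i < B
  · rcases hb : r.testBit i with _ | _
    · simp
    · exact absurd (h i hb) (by omega)
  · simp [hi]

/-- one hint -/
theorem inv_step (hk : k < 2 ^ B) (hB : B ≤ k) {X d : ℕ} (hX : Inv B k τ X)
    (hd : MT B k τ d) :
    Inv B k τ (X ^^^ ((2 ^ k / (d &&& X)) >>> (2 ^ k % (d &&& X)))) := by
  obtain ⟨b, hb, hc⟩ := hd
  set r := d &&& X with hr
  have hrb : r.testBit b = true := by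
    rw [hr, Nat.testBit_and, hb, hX.all b hc, Bool.true_and]
  have hr0 : r ≠ 0 := by
    rintro h0
    rw [h0, Nat.zero_testBit] at hrb
    exact absurd hrb (by simp)
  have hrr : ∀ i, r.testBit i = true → X.testBit i = true := by
    intro i hi
    rw [hr, Nat.testBit_and, Bool.and_eq_true] at hi
    exact hi.2
  by_cases hm : 2 ^ k % r = 0
  · -- `r` is a power of two
    obtain ⟨e, he, hre⟩ := (Nat.dvd_prime_pow Nat.prime_two).1 (Nat.dvd_of_mod_eq_zero hm)
    have hbe : b = e := by
      rw [hre, Nat.testBit_two_pow] at hrb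
      have := of_decide_eq_true hrb
      omega
    subst hbe
    have hq : 2 ^ k / r = 2 ^ (k - b) := by
      rw [hre, Nat.pow_div he (by norm_num)]
    rw [hm, Nat.shiftRight_zero, hq]
    obtain ⟨h1, h2⟩ := ct_range hc
    refine ⟨fun i hi => ?_, fun i hi => ?_⟩
    · rw [Nat.testBit_xor, Nat.testBit_two_pow, hX.all i hi]
      have hne : k - b ≠ i := by
        rintro rfl
        exact ct_excl hc hi
      simp [hne]
    · rw [Nat.testBit_xor, Nat.testBit_two_pow] at hi
      by_cases hne : k - b = i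
      · omega
      · exact hX.rng i (by simpa [hne] using hi)
  · -- the remainder is large
    have h2 : 2 ^ B ∣ r := two_pow_dvd_of_testBit fun i hi => (hX.rng i (hrr i hi)).1
    have h3 : 2 ^ B ∣ 2 ^ k := pow_dvd_pow 2 hB
    have h4 : 2 ^ B ∣ 2 ^ k % r := (Nat.dvd_mod_iff h2).2 h3
    have h5 : 2 ^ B ≤ 2 ^ k % r := Nat.le_of_dvd (Nat.pos_of_ne_zero hm) h4
    have h6 : (2 ^ k / r) >>> (2 ^ k % r) = 0 := by
      rw [Nat.shiftRight_eq_div_pow]
      apply Nat.div_eq_of_lt
      calc 2 ^ k / r ≤ 2 ^ k := Nat.div_le_self _ _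
        _ < 2 ^ (2 ^ k % r) := Nat.pow_lt_pow_right (by norm_num) (by omega)
    rw [h6, Nat.xor_zero]
    exact hX

end hint

section loops

variable {B k : ℕ} {τ : ℕ → Prop} {D : ℕ → ℕ} {K A : ℕ}

/-- `hint` keeps the invariant -/
theorem hint_inv (hk : k < 2 ^ B) (hB : B ≤ k) (hK : K = 2 ^ k) {c a X : ℕ}
    (hD : ∀ m < c, MT B k τ (D m)) (ha : a ≤ c) (hX : Inv B k τ X) : Inv B k τ (hint D K a X) := by
  cases a with
  | zero => exact hX
  | succ m =>
    subst hK
    exact inv_step hk hB hX (hD m ha)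

theorem blk4_inv (hk : k < 2 ^ B) (hB : B ≤ k) (hK : K = 2 ^ k) {c s X : ℕ}
    (hD : ∀ m < c, MT B k τ (D m)) (hX : Inv B k τ X) : Inv B k τ (blk4 D K c s X) := by
  unfold blk4
  iterate 4 refine hint_inv hk hB hK hD (Nat.sub_le _ _) ?_
  exact hX

theorem blk8_inv (hk : k < 2 ^ B) (hB : B ≤ k) (hK : K = 2 ^ k) {c s X : ℕ}
    (hD : ∀ m < c, MT B k τ (D m)) (hX : Inv B k τ X) : Inv B k τ (blk8 D K c s X) := by
  unfold blk8
  iterate 8 refine hint_inv hk hB hK hD (Nat.sub_le _ _) ?_
  exact hX

theorem blocks_inv (hk : k < 2 ^ B) (hB : B ≤ k) (hK : K = 2 ^ k) {c : ℕ}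
    (hD : ∀ m < c, MT B k τ (D m)) (n : ℕ) :
    ∀ {S X : ℕ}, Inv B k τ X → Inv B k τ (blocks D K c n S X) := by
  induction n with
  | zero => exact fun hX => hX
  | succ n ih =>
    intro S X hX
    exact ih (blk8_inv hk hB hK hD hX)

theorem pre4_inv (hk : k < 2 ^ B) (hB : B ≤ k) (hK : K = 2 ^ k) {c e S X : ℕ}
    (hD : ∀ m < c, MT B k τ (D m)) (hX : Inv B k τ X) : Inv B k τ (pre4 D K c e S X) := by
  cases e with
  | zero => exact hX
  | succ e => exact blk4_inv hk hB hK hD hX

/-- one lemma -/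
theorem fin_sound (hk : k < 2 ^ B) (hB : B ≤ k) (hK : K = 2 ^ k)
    (hA : ∀ b, A.testBit b = true ↔ B ≤ b ∧ b + B < k) (hτ : τ 0) {c n e f S : ℕ}
    (hD : ∀ m < c, MT B k τ (D m)) (h : fin D K A c n e f S = 0) : MT B k τ (D c) := by
  by_contra hcon
  have hX0 : Inv B k τ (Nat.land A (Nat.xor A (D c))) := by
    have e1 : Nat.land A (Nat.xor A (D c)) = A &&& (A ^^^ D c) := rfl
    rw [e1]
    refine ⟨fun b hb => ?_, fun b hb => ?_⟩
    · obtain ⟨h1, h2⟩ := ct_range hb
      have h3 : (D c).testBit b = false := by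
        rcases hdb : (D c).testBit b with _ | _
        · rfl
        · exact absurd ⟨b, hdb, hb⟩ hcon
      have h4 : b + B ≠ k := by
        intro h4
        rcases hb with ⟨v, hv1, hv2, hv3⟩ | ⟨v, hv1, hv2, hv3⟩
        · omega
        · have : v = 0 := by omega
          subst this
          exact hv3 hτ
      have h5 : A.testBit b = true := (hA b).2 ⟨h1, by omega⟩
      rw [Nat.testBit_and, Nat.testBit_xor, h5, h3]
      rfl
    · rw [Nat.testBit_and, Bool.and_eq_true] at hb
      have := (hA b).1 hb.1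
      omega
  have key : ∀ m, m < c → Nat.land (D m) (blocks D K c n (Nat.shiftRight S (Nat.mul (nat_lit 51) e))
      (pre4 D K c e S (Nat.land A (Nat.xor A (D c))))) ≠ 0 := by
    intro m hm
    have hY := blocks_inv (S := Nat.shiftRight S (Nat.mul (nat_lit 51) e)) hk hB hK hD n
      (pre4_inv (e := e) (S := S) hk hB hK hD hX0)
    obtain ⟨b, hb1, hb2⟩ := hD m hm
    intro h0
    have h1 : (D m &&& (blocks D K c n (Nat.shiftRight S (Nat.mul (nat_lit 51) e))
      (pre4 D K c e S (Nat.land A (Nat.xor A (D c)))))).testBit b = true := by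
      rw [Nat.testBit_and, hb1, hY.all b hb2, Bool.true_and]
    have h2 : D m &&& (blocks D K c n (Nat.shiftRight S (Nat.mul (nat_lit 51) e))
      (pre4 D K c e S (Nat.land A (Nat.xor A (D c))))) = 0 := h0
    rw [h2, Nat.zero_testBit] at h1
    exact absurd h1 (by simp)
  unfold fin at h
  revert h
  have hle : Nat.sub c f ≤ c := Nat.sub_le _ _
  generalize Nat.sub c f = a at hle
  cases a with
  | zero => exact fun h => absurd (show (1 : ℕ) = 0 from h) one_ne_zero
  | succ m => exact key m hle

theorem lemmas_sound (hk : k < 2 ^ B) (hB : B ≤ k) (hK : K = 2 ^ k)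
    (hA : ∀ b, A.testBit b = true ↔ B ≤ b ∧ b + B < k) (hτ : τ 0) (n : ℕ) :
    ∀ {c S : ℕ}, lemmas D K A n c S = true → (∀ m < c, MT B k τ (D m)) →
      ∀ m < c + n, MT B k τ (D m) := by
  induction n with
  | zero => exact fun _ hD => hD
  | succ n ih =>
    intro c S h hD
    have h1 : (Bool.rec (motive := fun _ => Bool) false
        (lemmas D K A n (Nat.add c (nat_lit 1)) (Nat.shiftRight S (Nat.add (nat_lit 22)
          (Nat.add (Nat.mul (nat_lit 101) (Nat.land S (nat_lit 255)))
            (Nat.mul (nat_lit 51) (Nat.land (Nat.shiftRight S (nat_lit 8)) (nat_lit 1)))))))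
        (Nat.beq (fin D K A c (Nat.land S (nat_lit 255))
          (Nat.land (Nat.shiftRight S (nat_lit 8)) (nat_lit 1))
          (Nat.land (Nat.shiftRight S (nat_lit 9)) (nat_lit 8191))
          (Nat.shiftRight S (nat_lit 22))) (nat_lit 0))) = true := h
    rcases hb : Nat.beq (fin D K A c (Nat.land S (nat_lit 255))
          (Nat.land (Nat.shiftRight S (nat_lit 8)) (nat_lit 1))
          (Nat.land (Nat.shiftRight S (nat_lit 9)) (nat_lit 8191))
          (Nat.shiftRight S (nat_lit 22))) (nat_lit 0) with _ | _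
    · rw [hb] at h1
      exact absurd h1 (by simp)
    · rw [hb] at h1
      have h2 := fin_sound hk hB hK hA hτ hD (Nat.eq_of_beq_eq_true hb)
      intro m hm
      refine ih (c := Nat.add c (nat_lit 1)) h1 (fun m hm => ?_) m ?_
      · rcases Nat.lt_or_ge m c with h3 | h3
        · exact hD m h3
        · have : m = c := by
            change m < c + 1 at hm
            omega
          rw [this]
          exact h2
      · change m < c + 1 + n
        omega

/-- soundness of `run` -/
theorem run_sound (hk : k < 2 ^ B) (hB : B ≤ k) (hK : K = 2 ^ k)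
    (hA : ∀ b, A.testBit b = true ↔ B ≤ b ∧ b + B < k) (hτ : τ 0) (l : Sg) :
    ∀ {c : ℕ}, run D K A l c = true → (∀ m < c, MT B k τ (D m)) →
      ∀ m < c + l.size, MT B k τ (D m) := by
  induction l with
  | nil => exact fun _ hD => hD
  | cons n S t ih =>
    intro c h hD
    have h1 : (Bool.rec (motive := fun _ => Bool) false (run D K A t (Nat.add c n))
      (lemmas D K A n c S)) = true := h
    rcases hb : lemmas D K A n c S with _ | _
    · rw [hb] at h1
      exact absurd h1 (by simp)
    · rw [hb] at h1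
      intro m hm
      refine ih (c := Nat.add c n) h1 (lemmas_sound hk hB hK hA hτ n hb hD) m ?_
      change m < c + (n + t.size) at hm
      change m < c + n + t.size
      omega

end loops

/-- the mask of all literals -/
theorem testBit_lits {B k : ℕ} (hBk : 2 * B ≤ k) (b : ℕ) :
    (2 ^ (k - B) - 2 ^ B).testBit b = true ↔ B ≤ b ∧ b + B < k := by
  have h1 : 2 ^ (k - B) - 2 ^ B = 2 ^ B * (2 ^ (k - B - B) - 1) := by
    rw [Nat.mul_sub, mul_one, ← pow_add]
    congr 2
    omega
  rw [h1, Nat.testBit_two_pow_mul, Nat.testBit_two_pow_sub_one]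
  simp only [Bool.and_eq_true, decide_eq_true_eq]
  omega

/-- soundness of `origs` -/
theorem origs_sound {B k : ℕ} {τ : ℕ → Prop} (hz : Zer B k τ) {OM L : ℕ → ℕ} {C : Tr} {A n : ℕ}
    (hA : A = 2 ^ (k - B) - 2 ^ B) (hOM : ∀ c, MT B k τ (OM c)) (h : origs OM L C A n = true) :
    ∀ i < n, MT B k τ (L i) := by
  have hlt := hz.lt
  have hA' : ∀ b, A.testBit b = true ↔ B ≤ b ∧ b + B < k := by
    subst hA; exact testBit_lits (by omega)
  induction n with
  | zero => exact fun i hi => absurd hi (by omega)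
  | succ n ih =>
    have h1 : (Bool.rec (motive := fun _ => Bool) false (origs OM L C A n)
      (Nat.beq (Nat.land A (OM (codeAt C n))) (Nat.land A (L n)))) = true := h
    rcases hb : Nat.beq (Nat.land A (OM (codeAt C n))) (Nat.land A (L n)) with _ | _
    · rw [hb] at h1
      exact absurd h1 (by simp)
    · rw [hb] at h1
      intro i hi
      rcases Nat.lt_or_ge i n with h3 | h3
      · exact ih h1 i h3
      · have : i = n := by omega
        subst this
        obtain ⟨b, hb1, hb2⟩ := hOM (codeAt C i)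
        refine ⟨b, ?_, hb2⟩
        have h4 : A.testBit b = true := by
          obtain ⟨h5, h6⟩ := ct_range hb2
          refine (hA' b).2 ⟨h5, ?_⟩
          rcases Nat.lt_or_ge (b + B) k with h7 | h7
          · exact h7
          · exfalso
            rcases hb2 with ⟨v, hv1, hv2, hv3⟩ | ⟨v, hv1, hv2, hv3⟩
            · omega
            · have : v = 0 := by omega
              subst this
              exact hv3 hz.t0
        have h5 : A &&& OM (codeAt C i) = A &&& L i := Nat.eq_of_beq_eq_true hb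
        have h6 : (A &&& OM (codeAt C i)).testBit b = true := by
          rw [Nat.testBit_and, h4, hb1, Bool.true_and]
        rw [h5, Nat.testBit_and, h4, Bool.true_and] at h6
        exact h6

/-- the empty clause is false -/
theorem not_mt {B k : ℕ} {τ : ℕ → Prop} {m : ℕ} (h : m = 0) : ¬ MT B k τ m := by
  rintro ⟨b, hb, -⟩
  rw [h, Nat.zero_testBit] at hb
  exact absurd hb (by simp)

/-- soundness of a job: the clauses from `a` on follow from the clauses below `a` -/
theorem job_sound {B k : ℕ} {τ : ℕ → Prop} (hz : Zer B k τ) (hk : k < 2 ^ B) {L : ℕ → ℕ} {IT : Tr}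
    {nI a K A : ℕ} {l : Sg} (hK : K = 2 ^ k) (hA : A = 2 ^ (k - B) - 2 ^ B)
    (h : run (Dm L IT nI a) K A l nI = true) (ha : 0 < a) (hL : ∀ i < a, MT B k τ (L i))
    {a' : ℕ} (ha' : a' = a + l.size) :
    ∀ i < a', MT B k τ (L i) := by
  subst ha'
  have hlt := hz.lt
  have hD : ∀ m < nI, MT B k τ (Dm L IT nI a m) := by
    intro m hm
    have h1 : Nat.ble (Nat.succ m) nI = true := Nat.ble_eq_true_of_le hm
    unfold Dm
    rw [h1]
    exact hL _ (Nat.mod_lt _ ha)
  have h2 := run_sound hk (by omega) hK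
    (by subst hA; exact testBit_lits (by omega)) hz.t0 l h hD
  intro i hi
  rcases Nat.lt_or_ge i a with h3 | h3
  · exact hL i h3
  · have h4 := h2 (nI + (i - a)) (by omega)
    have h5 : Nat.ble (Nat.succ (nI + (i - a))) nI = false := by
      rcases h6 : Nat.ble (Nat.succ (nI + (i - a))) nI with _ | _
      · rfl
      · have := Nat.le_of_ble_eq_true h6
        omega
    unfold Dm at h4
    rw [h5] at h4
    have h6 : Nat.add a (Nat.sub (nI + (i - a)) nI) = i := by
      change a + ((nI + (i - a)) - nI) = i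
      omega
    rw [h6] at h4
    exact h4

end Pool.Agent.Work.MP_92a29d_co_h93
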